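import Pool.Agent.Helper7.JT.All

namespace Pool.Agent.Results.MP_43f214_ag.BetaTwo

open Module Pool.Agent.Helper7.JT

/-- For every `g > 0` the number `p₀ = 2` works: a `g`-dimensional principally polarised complex
abelian variety is of product type if and only if its `2`-jets separation threshold is `3`. -/
theorem result :
    ∀ g : ℕ, 0 < g →
      ∀ (V : Type) [NormedAddCommGroup V] [InnerProductSpace ℂ V] [FiniteDimensional ℂ V]
        (L : Submodule ℤ V) [DiscreteTopology L] [IsZLattice ℝ L],
        finrank ℂ V = g → PrincipalT L 1 → (ProductType L ↔ beta L 2 = 2 + 1) := by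
  have h := stMain
  intro g hg V _ _ _ L _ _ hd hP
  have h3 : (2 : ℝ) + 1 = 3 := by norm_num
  rw [h3]
  exact h V L (by omega) hP

end Pool.Agent.Results.MP_43f214_ag.BetaTwo
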